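import Mathlib

namespace Pool.Agent.Results.MP_4236ce_al.RankGap

open Equiv
open scoped commutatorElement

/-! ### The invariants of the problem -/

/-- the minimal number of generators of a group (`⊤` if there is no finite generating set) -/
noncomputable def minGen (A : Type) [Group A] : ℕ∞ :=
  ⨅ (S : Finset A) (_ : Subgroup.closure (S : Set A) = ⊤), (S.card : ℕ∞)

/-- sanity check: for a finitely generated group `minGen` is Mathlib's `Group.rank` -/
lemma minGen_eq_rank (A : Type) [Group A] [Group.FG A] : minGen A = (Group.rank A : ℕ∞) := by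
  apply le_antisymm
  · obtain ⟨S, hS1, hS2⟩ := Group.rank_spec A
    refine iInf₂_le_of_le S hS2 ?_
    rw [hS1]
  · refine le_iInf₂ fun S hS => ?_
    exact_mod_cast Group.rank_le hS

/-- `δ(A)`: the minimal number of generators of the abelianisation of `A` -/
noncomputable def delta (A : Type) [Group A] : ℕ∞ := minGen (Abelianization A)

/-- the subgroup `[A, A] A^p` generated by the commutators and the `p`-th powers -/
def commPow (p : ℕ) (A : Type) [Group A] : Subgroup A :=
  commutator A ⊔ Subgroup.closure (Set.range fun a : A => a ^ p)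

instance commPow_normal (p : ℕ) (A : Type) [Group A] : (commPow p A).Normal :=
  Subgroup.Normal.of_commutator_le A le_sup_left

/-- `d_p(A)`: the minimal number of generators of `A / [A, A] A^p` -/
noncomputable def dp (p : ℕ) (A : Type) [Group A] : ℕ∞ := minGen (A ⧸ commPow p A)

/-- the lower normal limit of `f`: the supremum over normal subgroups `M` of finite index of the
infimum of `f(N)` over normal subgroups `N ≤ M` of finite index -/
noncomputable def lowerNormalLimit (f : (A : Type) → [Group A] → ℕ∞) (G : Type) [Group G] : ℕ∞ :=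
  ⨆ (M : Subgroup G) (_ : M.Normal ∧ M.FiniteIndex),
    ⨅ (N : Subgroup G) (_ : (N.Normal ∧ N.FiniteIndex) ∧ N ≤ M), f N

/-! ### The group -/

/-- infinite words over a three letter alphabet -/
abbrev W : Type := ℕ → Fin 3

def cons (x : Fin 3) (w : W) : W
  | 0 => x
  | n + 1 => w n

def tl (w : W) : W := fun n => w (n + 1)

@[simp] lemma cons_zero (x : Fin 3) (w : W) : cons x w 0 = x := rfl
@[simp] lemma cons_succ (x : Fin 3) (w : W) (n : ℕ) : cons x w (n + 1) = w n := rfl
@[simp] lemma tl_cons (x : Fin 3) (w : W) : tl (cons x w) = w := rfl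
@[simp] lemma cons_tl (w : W) : cons (w 0) (tl w) = w := by
  funext n; cases n <;> rfl

lemma tl_apply (w : W) (n : ℕ) : tl w n = w (n + 1) := rfl

/-- three permutations acting below the three first letters -/
def Phi : (Fin 3 → Perm W) →* Perm W where
  toFun h :=
    { toFun := fun w => cons (w 0) (h (w 0) (tl w))
      invFun := fun w => cons (w 0) ((h (w 0))⁻¹ (tl w))
      left_inv := fun w => by simp
      right_inv := fun w => by simp }
  map_one' := by ext w : 1; simp
  map_mul' g h := by ext w : 1; simp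

lemma Phi_apply (h : Fin 3 → Perm W) (w : W) : Phi h w = cons (w 0) (h (w 0) (tl w)) := rfl

/-- rooted permutation -/
def rho : Perm (Fin 3) →* Perm W where
  toFun s :=
    { toFun := fun w => cons (s (w 0)) (tl w)
      invFun := fun w => cons (s⁻¹ (w 0)) (tl w)
      left_inv := fun w => by simp
      right_inv := fun w => by simp }
  map_one' := by ext w : 1; simp
  map_mul' g h := by ext w : 1; simp

lemma rho_apply (s : Perm (Fin 3)) (w : W) : rho s w = cons (s (w 0)) (tl w) := rfl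

lemma rho_Phi (s : Perm (Fin 3)) (h : Fin 3 → Perm W) :
    rho s * Phi h = Phi (fun i => h (s⁻¹ i)) * rho s := by
  ext w : 1
  simp [rho_apply, Phi_apply]

lemma conj_Phi (s : Perm (Fin 3)) (h : Fin 3 → Perm W) :
    rho s * Phi h * (rho s)⁻¹ = Phi (fun i => h (s⁻¹ i)) := by
  rw [rho_Phi]; group

lemma Phi_injective : Function.Injective Phi := by
  intro g h hgh
  funext i
  ext w : 1
  have := congrArg (fun e : Perm W => tl (e (cons i w))) hgh
  simpa [Phi_apply] using this

/-- the directed permutation attached to `b`, letter by letter -/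
def dfun (b : Perm (Fin 3)) : ℕ → W → Fin 3
  | 0, w => w 0
  | n + 1, w =>
    if w 0 = 0 then dfun b n (tl w)
    else if w 0 = 1 then rho b (tl w) n
    else w (n + 1)

def dmap (b : Perm (Fin 3)) (w : W) : W := fun n => dfun b n w

lemma dmap_eq (b : Perm (Fin 3)) (w : W) :
    dmap b w = if w 0 = 0 then cons 0 (dmap b (tl w))
      else if w 0 = 1 then cons 1 (rho b (tl w)) else w := by
  funext n
  cases n with
  | zero =>
    simp only [dmap, dfun]
    split_ifs with h1 h2
    · simp [h1]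
    · simp [h2]
    · rfl
  | succ n =>
    simp only [dmap, dfun]
    split_ifs with h1 h2
    · rfl
    · rfl
    · rfl

lemma dmap_mul (b c : Perm (Fin 3)) (n : ℕ) : ∀ w : W, dmap b (dmap c w) n = dmap (b * c) w n := by
  induction n with
  | zero =>
    intro w
    simp [dmap, dfun]
  | succ n ih =>
    intro w
    rw [dmap_eq c w, dmap_eq (b * c) w]
    split_ifs with h1 h2
    · rw [dmap_eq b]; simp [ih]
    · rw [dmap_eq b]; simp
    · rw [dmap_eq b]; simp [h1, h2]

lemma dmap_one (n : ℕ) : ∀ w : W, dmap 1 w n = w n := by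
  induction n with
  | zero => intro w; rfl
  | succ n ih =>
    intro w
    rw [dmap_eq 1 w]
    split_ifs with h1 h2
    · simp [ih, tl]
    · simp [tl]
    · rfl

/-- directed permutations -/
def del : Perm (Fin 3) →* Perm W where
  toFun b :=
    { toFun := dmap b
      invFun := dmap b⁻¹
      left_inv := fun w => by
        funext n; rw [dmap_mul, inv_mul_cancel, dmap_one]
      right_inv := fun w => by
        funext n; rw [dmap_mul, mul_inv_cancel, dmap_one] }
  map_one' := by ext w : 1; funext n; exact dmap_one n w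
  map_mul' b c := by ext w : 1; funext n; exact (dmap_mul b c n w).symm

lemma del_apply (b : Perm (Fin 3)) (w : W) : del b w = dmap b w := rfl

/-- wreath recursion of the directed permutation -/
lemma del_eq (b : Perm (Fin 3)) : del b = Phi ![del b, rho b, 1] := by
  ext w : 1
  rw [del_apply, dmap_eq, Phi_apply]
  rcases (show w 0 = 0 ∨ w 0 = 1 ∨ w 0 = 2 by generalize w 0 = x; revert x; decide) with h | h | h
  · simp [h, del_apply]
  · simp [h]
  · have := cons_tl w
    rw [h] at this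
    simp [h, this]


/-- coordinate embedding -/
def iota (i : Fin 3) : Perm W →* Perm W := Phi.comp (MonoidHom.mulSingle (fun _ => Perm W) i)

lemma iota_def (i : Fin 3) (x : Perm W) : iota i x = Phi (Pi.mulSingle i x) := rfl

lemma iota_conj (s : Perm (Fin 3)) (i : Fin 3) (x : Perm W) :
    rho s * iota i x * (rho s)⁻¹ = iota (s i) x := by
  rw [iota_def, conj_Phi, iota_def]
  congr 1
  funext j
  by_cases h : j = s i
  · subst h; simp
  · rw [Pi.mulSingle_eq_of_ne h, Pi.mulSingle_eq_of_ne]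
    intro h2; apply h; rw [← h2]; simp

lemma iota_comm {i j : Fin 3} (hij : i ≠ j) (x y : Perm W) :
    iota i x * iota j y = iota j y * iota i x := by
  rw [iota_def, iota_def, ← map_mul, ← map_mul]
  congr 1
  exact Pi.mulSingle_apply_commute (fun _ => x * y) i j |> fun _ => by
    funext k
    by_cases hi : k = i
    · subst hi; simp [Pi.mulSingle_eq_of_ne hij]
    · simp [Pi.mulSingle_eq_of_ne hi]

lemma Phi_eq (h : Fin 3 → Perm W) : Phi h = iota 0 (h 0) * iota 1 (h 1) * iota 2 (h 2) := by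
  rw [iota_def, iota_def, iota_def, ← map_mul, ← map_mul]
  congr 1
  funext k
  fin_cases k <;> simp [Pi.mulSingle]

/-- the group -/
def Gam : Subgroup (Perm W) := Subgroup.closure (Set.range rho ∪ Set.range del)

lemma rho_mem (s : Perm (Fin 3)) : rho s ∈ Gam := Subgroup.subset_closure (Or.inl ⟨s, rfl⟩)
lemma del_mem (s : Perm (Fin 3)) : del s ∈ Gam := Subgroup.subset_closure (Or.inr ⟨s, rfl⟩)

lemma Gam_fg : Gam.FG := by
  rw [Subgroup.fg_iff]
  exact ⟨_, rfl, (Set.finite_range _).union (Set.finite_range _)⟩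

/-- the derived series inside `Perm W` -/
def D : ℕ → Subgroup (Perm W)
  | 0 => Gam
  | n + 1 => ⁅D n, D n⁆

lemma D_zero : D 0 = Gam := rfl
lemma D_succ (n : ℕ) : D (n + 1) = ⁅D n, D n⁆ := rfl

lemma D_one : D 1 = ⁅Gam, Gam⁆ := rfl

lemma D_succ_le (n : ℕ) : D (n + 1) ≤ D n := by
  rw [D_succ]
  exact Subgroup.commutator_le_self (D n) 

lemma D_anti : Antitone D := antitone_nat_of_succ_le D_succ_le

lemma D_le (n : ℕ) : D n ≤ Gam := D_anti (Nat.zero_le n)

/-- conjugation by elements of the group preserves each term -/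
lemma D_conj (n : ℕ) : ∀ g ∈ Gam, ∀ x ∈ D n, g * x * g⁻¹ ∈ D n := by
  induction n with
  | zero => intro g hg x hx; exact Gam.mul_mem (Gam.mul_mem hg hx) (Gam.inv_mem hg)
  | succ n ih =>
    intro g hg
    have : D (n + 1) ≤ (D (n + 1)).comap (MulAut.conj g).toMonoidHom := by
      rw [D_succ, Subgroup.commutator_le]
      intro a ha b hb
      rw [Subgroup.mem_comap, map_commutatorElement]
      exact Subgroup.commutator_mem_commutator (ih g hg a ha) (ih g hg b hb)
    intro x hx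
    exact this hx

lemma exists_perm {i j : Fin 3} (h : i ≠ j) : ∃ s : Perm (Fin 3), s 2 = i ∧ s 1 = j := by
  revert i j; decide

/-- for each element and two coordinates there is an element of the group stabilising the first
level with prescribed coordinates `1` and `x` -/
lemma lemA {i j : Fin 3} (hij : i ≠ j) {x : Perm W} (hx : x ∈ Gam) :
    ∃ h : Fin 3 → Perm W, Phi h ∈ Gam ∧ h i = 1 ∧ h j = x := by
  unfold Gam at hx
  induction hx using Subgroup.closure_induction with
  | mem x hx =>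
    rcases hx with ⟨b, rfl⟩ | ⟨b, rfl⟩
    · obtain ⟨s, hs2, hs1⟩ := exists_perm hij
      refine ⟨fun k => (![del b, rho b, 1] : Fin 3 → Perm W) (s⁻¹ k), ?_, ?_, ?_⟩
      · rw [← conj_Phi, ← del_eq]
        exact Gam.mul_mem (Gam.mul_mem (rho_mem s) (del_mem b)) (Gam.inv_mem (rho_mem s))
      · rw [← hs2]; simp
      · rw [← hs1]; simp
    · have : ∃ s : Perm (Fin 3), s 2 = i ∧ s 0 = j := by revert i j; decide
      obtain ⟨s, hs2, hs1⟩ := this
      refine ⟨fun k => (![del b, rho b, 1] : Fin 3 → Perm W) (s⁻¹ k), ?_, ?_, ?_⟩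
      · rw [← conj_Phi, ← del_eq]
        exact Gam.mul_mem (Gam.mul_mem (rho_mem s) (del_mem b)) (Gam.inv_mem (rho_mem s))
      · rw [← hs2]; simp
      · rw [← hs1]; simp
  | one => exact ⟨1, by simp [Gam.one_mem], rfl, rfl⟩
  | mul x y _ _ ihx ihy =>
    obtain ⟨h, hh, hi, hj⟩ := ihx
    obtain ⟨g, gg, gi, gj⟩ := ihy
    exact ⟨h * g, by rw [map_mul]; exact Gam.mul_mem hh gg, by simp [hi, gi], by simp [hj, gj]⟩
  | inv x _ ihx =>
    obtain ⟨h, hh, hi, hj⟩ := ihx
    exact ⟨h⁻¹, by rw [map_inv]; exact Gam.inv_mem hh, by simp [hi], by simp [hj]⟩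

/-- the element with coordinates `x` and `x⁻¹` -/
def ee (i j : Fin 3) (x : Perm W) : Perm W := iota i x * iota j x⁻¹

lemma swap_calc {i j : Fin 3} (hij : i ≠ j) (h : Fin 3 → Perm W) (hj : h j = 1) :
    ⁅Phi h, rho (Equiv.swap i j)⁆ = ee i j (h i) := by
  rw [commutatorElement_def]
  have : rho (Equiv.swap i j) * (Phi h)⁻¹ * (rho (Equiv.swap i j))⁻¹ = Phi (fun k => (h (Equiv.swap i j k))⁻¹) := by
    rw [← map_inv, conj_Phi]
    congr 1
  rw [mul_assoc, mul_assoc, ← mul_assoc (rho _), this, ee, iota_def, iota_def, ← map_mul, ← map_mul]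
  congr 1
  funext k
  simp only [Pi.mul_apply]
  by_cases h1 : k = i
  · subst h1; simp [hj, Pi.mulSingle_eq_of_ne hij]
  · by_cases h2 : k = j
    · subst h2; simp [hj, Pi.mulSingle_eq_of_ne h1]
    · simp [Pi.mulSingle_eq_of_ne h1, Pi.mulSingle_eq_of_ne h2, Equiv.swap_apply_of_ne_of_ne h1 h2]

/-- step 1 -/
lemma ee_mem_D1 {i j : Fin 3} (hij : i ≠ j) {x : Perm W} (hx : x ∈ Gam) : ee i j x ∈ D 1 := by
  obtain ⟨h, hh, hj, hi⟩ := lemA hij.symm hx
  rw [← hi, ← swap_calc hij h hj]
  exact Subgroup.commutator_mem_commutator hh (rho_mem _)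

lemma ee_comm {i j k : Fin 3} (hij : i ≠ j) (hik : i ≠ k) (hjk : j ≠ k) (x y : Perm W) :
    ⁅ee i j x, ee i k y⁆ = iota i ⁅x, y⁆ := by
  rw [commutatorElement_def, commutatorElement_def]
  simp only [ee, iota_def, ← map_mul, ← map_inv]
  congr 1
  funext l
  by_cases h1 : l = i
  · subst h1; simp [Pi.mulSingle_eq_of_ne hij, Pi.mulSingle_eq_of_ne hik]
  · by_cases h2 : l = j
    · subst h2; simp [Pi.mulSingle_eq_of_ne h1, Pi.mulSingle_eq_of_ne hjk]
    · simp [Pi.mulSingle_eq_of_ne h1, Pi.mulSingle_eq_of_ne h2]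

lemma exists_third {i : Fin 3} : ∃ j k : Fin 3, i ≠ j ∧ i ≠ k ∧ j ≠ k := by
  revert i; decide

lemma iota_D1_of {n : ℕ} (h : ∀ i j : Fin 3, i ≠ j → ∀ x ∈ Gam, ee i j x ∈ D n) (i : Fin 3) :
    ∀ x ∈ D 1, iota i x ∈ D (n + 1) := by
  have : D 1 ≤ (D (n + 1)).comap (iota i) := by
    rw [D_one, Subgroup.commutator_le]
    intro a ha b hb
    rw [Subgroup.mem_comap]
    obtain ⟨j, k, hij, hik, hjk⟩ := exists_third (i := i)
    rw [← ee_comm hij hik hjk]
    exact Subgroup.commutator_mem_commutator (h _ _ hij _ ha) (h _ _ hik _ hb)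
  exact fun x hx => this hx

/-- step 2 -/
lemma iota_D1_D2 (i : Fin 3) : ∀ x ∈ D 1, iota i x ∈ D 2 :=
  iota_D1_of (fun _ _ hij _ hx => ee_mem_D1 hij hx) i

lemma sq_perm (b : Perm (Fin 3)) : ∃ c d : Perm (Fin 3), b ^ 2 = ⁅c, d⁆ := by
  revert b; decide

/-- step 8: squares lie in the commutator subgroup -/
lemma sq_mem {x : Perm W} (hx : x ∈ Gam) : x ^ 2 ∈ D 1 := by
  have key : ∀ x : Gam, x ^ 2 ∈ commutator Gam := by
    intro x
    have h1 : (powMonoidHom 2 : Abelianization Gam →* Abelianization Gam).comp Abelianization.of = 1 := by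
      rw [MonoidHom.ext_iff]
      rintro ⟨y, hy⟩
      unfold Gam at hy
      induction hy using Subgroup.closure_induction with
      | mem y hy =>
        rcases hy with ⟨b, rfl⟩ | ⟨b, rfl⟩
        · obtain ⟨c, d, hb⟩ := sq_perm b
          have : (⟨rho b, rho_mem b⟩ : Gam) ^ 2 = ⁅(⟨rho c, rho_mem c⟩ : Gam), ⟨rho d, rho_mem d⟩⁆ := by
            apply Subtype.ext
            simp only [commutatorElement_def, SubmonoidClass.coe_pow, Subgroup.coe_mul, InvMemClass.coe_inv]
            rw [← map_pow, hb, map_commutatorElement, commutatorElement_def]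
          have h2 : (Abelianization.of (⟨rho b, rho_mem b⟩ : Gam)) ^ 2 = 1 := by
            rw [← map_pow, this, map_commutatorElement, commutatorElement_eq_one_iff_mul_comm]
            exact mul_comm _ _
          exact h2
        · obtain ⟨c, d, hb⟩ := sq_perm b
          have : (⟨del b, del_mem b⟩ : Gam) ^ 2 = ⁅(⟨del c, del_mem c⟩ : Gam), ⟨del d, del_mem d⟩⁆ := by
            apply Subtype.ext
            simp only [commutatorElement_def, SubmonoidClass.coe_pow, Subgroup.coe_mul, InvMemClass.coe_inv]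
            rw [← map_pow, hb, map_commutatorElement, commutatorElement_def]
          have h2 : (Abelianization.of (⟨del b, del_mem b⟩ : Gam)) ^ 2 = 1 := by
            rw [← map_pow, this, map_commutatorElement, commutatorElement_eq_one_iff_mul_comm]
            exact mul_comm _ _
          exact h2
      | one => exact map_one _
      | mul y z hy hz ihy ihz =>
        have : (⟨y * z, Gam.mul_mem hy hz⟩ : Gam) = ⟨y, hy⟩ * ⟨z, hz⟩ := rfl
        rw [this, map_mul, ihy, ihz]; simp
      | inv y hy ihy =>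
        have : (⟨y⁻¹, Gam.inv_mem hy⟩ : Gam) = ⟨y, hy⟩⁻¹ := rfl
        rw [this, map_inv, ihy]; simp
    have h2 := DFunLike.congr_fun h1 x
    rw [← Abelianization.ker_of, MonoidHom.mem_ker, map_pow]
    exact h2
  have := key ⟨x, hx⟩
  rw [D_one, ← Subgroup.map_subtype_commutator]
  exact ⟨_, this, rfl⟩



lemma exists_cycle {i k : Fin 3} (h : i ≠ k) :
    ∃ (j : Fin 3) (s : Perm (Fin 3)), (i ≠ j ∧ j ≠ k) ∧ (s i = j ∧ s j = k) ∧ Equiv.Perm.sign s = 1 := by
  revert i k; decide

lemma even_comm (s : Perm (Fin 3)) (h : Equiv.Perm.sign s = 1) :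
    ∃ c d : Perm (Fin 3), s = ⁅c, d⁆ := by
  revert s; decide

lemma rho_even_mem (s : Perm (Fin 3)) (h : Equiv.Perm.sign s = 1) : rho s ∈ D 1 := by
  obtain ⟨c, d, rfl⟩ := even_comm s h
  rw [map_commutatorElement]
  exact Subgroup.commutator_mem_commutator (rho_mem c) (rho_mem d)

lemma ee_conj (s : Perm (Fin 3)) (i j : Fin 3) (x : Perm W) :
    rho s * ee i j x * (rho s)⁻¹ = ee (s i) (s j) x := by
  rw [ee, ee, ← iota_conj, ← iota_conj]; group

/-- step 3 -/
lemma ee_mem_D2 {k i : Fin 3} (hki : k ≠ i) {x : Perm W} (hx : x ∈ Gam) : ee k i x ∈ D 2 := by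
  obtain ⟨j, s, ⟨hij, hjk⟩, ⟨h1, h2⟩, hs⟩ := exists_cycle hki.symm
  have e1 : ⁅rho s, ee i j x⁆ ∈ D 2 :=
    Subgroup.commutator_mem_commutator (rho_even_mem s hs) (ee_mem_D1 hij hx)
  have hx2 : x ^ 2 ∈ D 1 := sq_mem hx
  have e2 : iota j (x ^ 2) ∈ D 2 := iota_D1_D2 j _ hx2
  have e3 : iota k (x ^ 2) ∈ D 2 := iota_D1_D2 k _ hx2
  have e4 : ee k i x = iota k (x ^ 2) * ((iota j (x ^ 2))⁻¹ * ⁅rho s, ee i j x⁆) := by
    rw [commutatorElement_def, ee_conj, h1, h2]
    simp only [ee, iota_def, ← map_mul, ← map_inv]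
    congr 1
    funext l
    by_cases hk : l = k
    · subst hk; simp [Pi.mulSingle_eq_of_ne hki, Pi.mulSingle_eq_of_ne hjk.symm, pow_two]
    · by_cases hi : l = i
      · subst hi; simp [Pi.mulSingle_eq_of_ne hki.symm, Pi.mulSingle_eq_of_ne hij]
      · by_cases hj : l = j
        · subst hj; simp [Pi.mulSingle_eq_of_ne hk, Pi.mulSingle_eq_of_ne hi, pow_two]
        · simp [Pi.mulSingle_eq_of_ne hk, Pi.mulSingle_eq_of_ne hi, Pi.mulSingle_eq_of_ne hj]
  rw [e4]
  exact (D 2).mul_mem e3 ((D 2).mul_mem ((D 2).inv_mem e2) e1)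

/-- step 4 -/
lemma iota_D1_D3 (i : Fin 3) : ∀ x ∈ D 1, iota i x ∈ D 3 :=
  iota_D1_of (fun _ _ hij _ hx => ee_mem_D2 hij hx) i

/-- elements with all three coordinates in `H` -/
def L (H : Subgroup (Perm W)) : Subgroup (Perm W) :=
  (Subgroup.pi Set.univ (fun _ : Fin 3 => H)).map Phi

lemma mem_L {H : Subgroup (Perm W)} {g : Perm W} :
    g ∈ L H ↔ ∃ h : Fin 3 → Perm W, (∀ i, h i ∈ H) ∧ Phi h = g := by
  simp [L, Subgroup.mem_map, Subgroup.mem_pi]

lemma Phi_mem_L {H : Subgroup (Perm W)} {h : Fin 3 → Perm W} : Phi h ∈ L H ↔ ∀ i, h i ∈ H := by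
  rw [mem_L]
  constructor
  · rintro ⟨g, hg, e⟩
    rw [← Phi_injective e]; exact hg
  · intro hh; exact ⟨h, hh, rfl⟩

lemma L_le {H K : Subgroup (Perm W)} (h : ∀ i, ∀ x ∈ H, iota i x ∈ K) : L H ≤ K := by
  intro g hg
  obtain ⟨f, hf, rfl⟩ := mem_L.1 hg
  rw [Phi_eq]
  exact K.mul_mem (K.mul_mem (h _ _ (hf _)) (h _ _ (hf _))) (h _ _ (hf _))

lemma L_mono {H K : Subgroup (Perm W)} (h : H ≤ K) : L H ≤ L K := by
  intro g hg
  obtain ⟨f, hf, rfl⟩ := mem_L.1 hg
  exact Phi_mem_L.2 fun i => h (hf i)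

lemma L_comm (H K : Subgroup (Perm W)) : L ⁅H, K⁆ = ⁅L H, L K⁆ := by
  rw [L, L, L, ← Subgroup.map_commutator, Subgroup.commutator_pi_pi_of_finite]

lemma L_D1_le_D3 : L (D 1) ≤ D 3 := L_le iota_D1_D3

lemma iota_mem_L {H : Subgroup (Perm W)} {i : Fin 3} {x : Perm W} (hx : x ∈ H) : iota i x ∈ L H := by
  rw [iota_def, Phi_mem_L]
  intro j
  by_cases h : j = i
  · subst h; simpa using hx
  · rw [Pi.mulSingle_eq_of_ne h]; exact H.one_mem

/-- step 6, lemma B -/
lemma Phi_mem_D2 {h : Fin 3 → Perm W} (hh : ∀ i, h i ∈ Gam) (hp : h 0 * h 1 * h 2 ∈ D 1) :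
    Phi h ∈ D 2 := by
  have e1 : Phi h = ee 0 1 (h 0) * (ee 1 2 (h 0 * h 1) * iota 2 (h 0 * h 1 * h 2)) := by
    simp only [ee, iota_def, ← map_mul]
    congr 1
    funext k
    fin_cases k <;> simp [Pi.mulSingle, mul_assoc]
  rw [e1]
  exact (D 2).mul_mem (ee_mem_D2 (by decide) (hh 0)) ((D 2).mul_mem
    (ee_mem_D2 (by decide) (Gam.mul_mem (hh 0) (hh 1))) (iota_D1_D2 2 _ hp))

/-- the permutational wreath product -/
abbrev P : Type := (Fin 3 → Gam) ⋊[(mulAutArrow : Perm (Fin 3) →* MulAut (Fin 3 → Gam))] Perm (Fin 3)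

def PhiG : (Fin 3 → Gam) →* Perm W :=
  Phi.comp (MonoidHom.pi fun i => Gam.subtype.comp (Pi.evalMonoidHom _ i))

lemma PhiG_apply (h : Fin 3 → Gam) : PhiG h = Phi (fun i => (h i : Perm W)) := rfl

def kappa : P →* Perm W :=
  SemidirectProduct.lift PhiG rho (by
    intro s
    ext h : 1
    simp only [MonoidHom.comp_apply, PhiG_apply, MulEquiv.coe_toMonoidHom, MulAut.conj_apply]
    rw [conj_Phi]
    rfl)

def prodHom : (Fin 3 → Gam) →* Abelianization Gam where
  toFun h := ∏ i, Abelianization.of (h i)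
  map_one' := by simp
  map_mul' a b := by simp [Finset.prod_mul_distrib]

def theta : P →* Abelianization Gam :=
  SemidirectProduct.lift prodHom 1 (by
    intro s
    ext h : 1
    simp only [MonoidHom.comp_apply, MulEquiv.coe_toMonoidHom, MonoidHom.one_apply, MulAut.conj_apply,
      one_mul, inv_one, mul_one]
    change ∏ i, Abelianization.of (h (s⁻¹ • i)) = ∏ i, Abelianization.of (h i)
    exact Equiv.prod_comp s⁻¹ (fun i => Abelianization.of (h i)))

lemma Gam_le_range : Gam ≤ kappa.range := by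
  conv_lhs => unfold Gam
  rw [Subgroup.closure_le]
  rintro x (⟨b, rfl⟩ | ⟨b, rfl⟩)
  · exact ⟨SemidirectProduct.inr b, by simp [kappa]⟩
  · refine ⟨SemidirectProduct.inl ![⟨del b, del_mem b⟩, ⟨rho b, rho_mem b⟩, 1], ?_⟩
    simp only [kappa, SemidirectProduct.lift_inl, PhiG_apply]
    conv_rhs => rw [del_eq]
    congr 1
    funext i
    fin_cases i <;> rfl

lemma D1_le {A : Type} [CommGroup A] (f : P →* A) : D 1 ≤ f.ker.map kappa := by
  calc D 1 = ⁅Gam, Gam⁆ := rfl
    _ ≤ ⁅kappa.range, kappa.range⁆ := Subgroup.commutator_mono Gam_le_range Gam_le_range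
    _ = (commutator P).map kappa := by
        rw [MonoidHom.range_eq_map, ← Subgroup.map_commutator, commutator_def]
    _ ≤ f.ker.map kappa := Subgroup.map_mono (Abelianization.commutator_subset_ker f)


lemma kappa_inl (h : Fin 3 → Gam) : kappa (SemidirectProduct.inl h) = Phi (fun i => (h i : Perm W)) := by
  rw [kappa, SemidirectProduct.lift_inl, PhiG_apply]

lemma eq_inl_of_rightHom {p : P} (hp : SemidirectProduct.rightHom p = 1) :
    ∃ h, p = SemidirectProduct.inl h := by
  have : p ∈ (SemidirectProduct.rightHom : P →* Perm (Fin 3)).ker := hp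
  rw [← SemidirectProduct.range_inl_eq_ker_rightHom] at this
  obtain ⟨h, hh⟩ := this
  exact ⟨h, hh.symm⟩

lemma even_commute (s t : Perm (Fin 3)) (hs : Equiv.Perm.sign s = 1) (ht : Equiv.Perm.sign t = 1) :
    s * t = t * s := by
  revert s t; decide

lemma even_cube (s : Perm (Fin 3)) (hs : Equiv.Perm.sign s = 1) : s ^ 3 = 1 := by
  revert s; decide

/-- step 10 -/
lemma D2_le : D 2 ≤ L Gam := by
  let f : P →* ℤˣ := Equiv.Perm.sign.comp SemidirectProduct.rightHom
  have h1 : D 2 ≤ (⁅f.ker, f.ker⁆).map kappa := by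
    rw [Subgroup.map_commutator]
    exact Subgroup.commutator_mono (D1_le f) (D1_le f)
  have h2 : ⁅f.ker, f.ker⁆ ≤ (SemidirectProduct.rightHom : P →* Perm (Fin 3)).ker := by
    rw [Subgroup.commutator_le]
    intro a ha b hb
    rw [MonoidHom.mem_ker, map_commutatorElement, commutatorElement_eq_one_iff_mul_comm]
    exact even_commute _ _ ha hb
  intro g hg
  obtain ⟨p, hp, rfl⟩ := h1 hg
  obtain ⟨h, rfl⟩ := eq_inl_of_rightHom (h2 hp)
  rw [kappa_inl, Phi_mem_L]
  exact fun i => (h i).2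

lemma D3_eq : D 3 = L (D 1) := by
  apply le_antisymm _ L_D1_le_D3
  calc D 3 = ⁅D 2, D 2⁆ := rfl
    _ ≤ ⁅L Gam, L Gam⁆ := Subgroup.commutator_mono D2_le D2_le
    _ = L (D 1) := (L_comm _ _).symm

lemma D_add (k : ℕ) : D (k + 3) = L (D (k + 1)) := by
  induction k with
  | zero => exact D3_eq
  | succ k ih =>
    have : D (k + 1 + 3) = ⁅D (k + 3), D (k + 3)⁆ := rfl
    rw [this, ih, ← L_comm]
    rfl

/-- step 9 -/
lemma cube_mem {g : Perm W} (hg : g ∈ D 1) : g ^ 3 ∈ D 2 := by
  let f : P →* Abelianization Gam × ℤˣ := theta.prod (Equiv.Perm.sign.comp SemidirectProduct.rightHom)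
  obtain ⟨p, hp, rfl⟩ := D1_le f hg
  have hp' : f p = 1 := hp
  have h1 : theta p = 1 := congrArg Prod.fst hp'
  have h2 : Equiv.Perm.sign (SemidirectProduct.rightHom p) = 1 := congrArg Prod.snd hp'
  have h3 : SemidirectProduct.rightHom (p ^ 3) = 1 := by
    rw [map_pow]; exact even_cube _ h2
  obtain ⟨h, hh⟩ := eq_inl_of_rightHom h3
  have h4 : theta (SemidirectProduct.inl h) = 1 := by rw [← hh, map_pow, h1, one_pow]
  rw [← map_pow, hh, kappa_inl]
  apply Phi_mem_D2 (fun i => (h i).2)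
  have h5 : Abelianization.of (h 0 * h 1 * h 2) = 1 := by
    rw [theta, SemidirectProduct.lift_inl] at h4
    have : prodHom h = ∏ i, Abelianization.of (h i) := rfl
    rw [this, Fin.prod_univ_three] at h4
    rw [map_mul, map_mul, h4]
  rw [← MonoidHom.mem_ker, Abelianization.ker_of] at h5
  rw [D_one, ← Subgroup.map_subtype_commutator]
  exact ⟨_, h5, rfl⟩

/-- step 11 -/
lemma sq_mem_D3 {g : Perm W} (hg : g ∈ D 2) : g ^ 2 ∈ D 3 := by
  obtain ⟨h, hh, rfl⟩ := mem_L.1 (D2_le hg)
  rw [← map_pow, D3_eq, Phi_mem_L]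
  exact fun i => sq_mem (hh i)

/-- the exponent of the k-th derived quotient -/
def q (k : ℕ) : ℕ := if k % 2 = 0 then 2 else 3

lemma q_add_two (k : ℕ) : q (k + 2) = q k := by simp [q]

/-- step 12 -/
lemma pow_q_mem (k : ℕ) : ∀ g ∈ D k, g ^ q k ∈ D (k + 1) := by
  induction k using Nat.strong_induction_on with
  | _ k ih =>
    match k with
    | 0 => exact fun g hg => sq_mem hg
    | 1 => exact fun g hg => cube_mem hg
    | 2 => exact fun g hg => sq_mem_D3 hg
    | (k + 3) =>
      intro g hg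
      rw [D_add] at hg
      obtain ⟨h, hh, rfl⟩ := mem_L.1 hg
      rw [← map_pow, D_add (k + 1), Phi_mem_L]
      intro i
      rw [q_add_two (k + 1)]
      exact ih (k + 1) (by lia) _ (hh i)

lemma D_odd (n : ℕ) : D (2 * n + 1) = L^[n] (D 1) := by
  induction n with
  | zero => rfl
  | succ n ih =>
    rw [Function.iterate_succ_apply', ← ih, ← D_add]; rfl

lemma D_even (n : ℕ) : D (2 * n + 2) = L^[n] (D 2) := by
  induction n with
  | zero => rfl
  | succ n ih =>
    rw [Function.iterate_succ_apply', ← ih, ← D_add (2 * n + 1)]; rfl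

/-- step 14 -/
lemma iter_fix (H : Subgroup (Perm W)) (n : ℕ) : ∀ g ∈ L^[n] H, ∀ w : W, ∀ i < n, g w i = w i := by
  induction n with
  | zero => intro g _ w i hi; exact absurd hi (Nat.not_lt_zero _)
  | succ n ih =>
    intro g hg w i hi
    rw [Function.iterate_succ_apply'] at hg
    obtain ⟨h, hh, rfl⟩ := mem_L.1 hg
    cases i with
    | zero => rfl
    | succ i => exact ih _ (hh _) (tl w) i (Nat.lt_of_succ_lt_succ hi)

lemma eq_one_of_forall {g : Perm W} (hg : ∀ k, g ∈ D k) : g = 1 := by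
  ext w : 1
  funext i
  have := hg (2 * (i + 1) + 1)
  rw [D_odd] at this
  exact iter_fix _ _ g this w i (Nat.lt_succ_self i)


lemma exists_form {g : Perm W} (hg : g ∈ Gam) :
    ∃ (h : Fin 3 → Perm W) (s : Perm (Fin 3)), (∀ i, h i ∈ Gam) ∧ g = Phi h * rho s := by
  obtain ⟨p, rfl⟩ := Gam_le_range hg
  refine ⟨fun i => (p.left i : Perm W), p.right, fun i => (p.left i).2, ?_⟩
  conv_lhs => rw [← SemidirectProduct.inl_left_mul_inr_right p]
  rw [map_mul, kappa_inl]
  congr 1

lemma iota_D1 (i : Fin 3) {x : Perm W} (hx : x ∈ D 1) : iota i x ∈ D 1 :=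
  D_anti (by norm_num) (iota_D1_D2 i x hx)

lemma exists_even (i j : Fin 3) : ∃ s : Perm (Fin 3), Equiv.Perm.sign s = 1 ∧ s i = j := by
  revert i j; decide

lemma L_le_of_iota {H M : Subgroup (Perm W)} (hM : ∀ d ∈ D 1, ∀ m ∈ M, d * m * d⁻¹ ∈ M) (i : Fin 3)
    (h : ∀ x ∈ H, iota i x ∈ M) : L H ≤ M := by
  apply L_le
  intro j x hx
  obtain ⟨s, hs, rfl⟩ := exists_even i j
  rw [← iota_conj]
  exact hM _ (rho_even_mem s hs) _ (h x hx)

lemma Phi_conj_iota (h : Fin 3 → Perm W) (i : Fin 3) (x : Perm W) :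
    Phi h * iota i x * (Phi h)⁻¹ = iota i (h i * x * (h i)⁻¹) := by
  simp only [iota_def, ← map_mul, ← map_inv]
  congr 1
  funext l
  by_cases hi : l = i
  · subst hi; simp
  · simp [Pi.mulSingle_eq_of_ne hi]

/-- step 15 -/
lemma csp_aux (n : ℕ) : ∀ g ∈ Gam, (∃ w : W, g w n ≠ w n) → ∀ M : Subgroup (Perm W),
    (∀ d ∈ D 1, ∀ m ∈ M, d * m * d⁻¹ ∈ M) → (∀ d ∈ D 1, ⁅g, d⁆ ∈ M) →
    ∃ m : ℕ, L^[m] (D 2) ≤ M := by
  induction n with
  | zero =>
    rintro g hg ⟨w, hw⟩ M hM hgM
    obtain ⟨h, s, hh, rfl⟩ := exists_form hg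
    have hs : s (w 0) ≠ w 0 := by
      intro e; apply hw
      simp [Phi_apply, rho_apply, e]
    refine ⟨1, L_le_of_iota hM (w 0) ?_⟩
    set i := w 0
    have key : ∀ a ∈ D 1, ∀ b ∈ D 1, iota i ⁅a⁻¹, b⁆ ∈ M := by
      intro a ha b hb
      have h1 := hgM _ (iota_D1 i ha)
      have h2 : ⁅Phi h * rho s, iota i a⁆ = iota (s i) (h (s i) * a * (h (s i))⁻¹) * iota i a⁻¹ := by
        rw [← Phi_conj_iota, ← iota_conj, commutatorElement_def, map_inv]
        group
      rw [h2] at h1
      have h3 := M.mul_mem h1 (hM _ (iota_D1 i hb) _ (M.inv_mem h1))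
      have h4 : iota (s i) (h (s i) * a * (h (s i))⁻¹) * iota i a⁻¹ *
          (iota i b * (iota (s i) (h (s i) * a * (h (s i))⁻¹) * iota i a⁻¹)⁻¹ * (iota i b)⁻¹) =
          iota i ⁅a⁻¹, b⁆ := by
        rw [commutatorElement_def]
        simp only [iota_def, ← map_mul, ← map_inv]
        congr 1
        funext l
        by_cases hi : l = i
        · subst hi; simp [Pi.mulSingle_eq_of_ne hs.symm, mul_assoc]
        · simp [Pi.mulSingle_eq_of_ne hi]
      rw [h4] at h3
      exact h3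
    have key2 : D 2 ≤ M.comap (iota i) := by
      rw [show D 2 = ⁅D 1, D 1⁆ from rfl, Subgroup.commutator_le]
      intro a ha b hb
      have := key a⁻¹ ((D 1).inv_mem ha) b hb
      rwa [inv_inv] at this
    exact fun x hx => key2 hx
  | succ n ih =>
    rintro g hg ⟨w, hw⟩ M hM hgM
    obtain ⟨h, s, hh, rfl⟩ := exists_form hg
    by_cases hs : ∀ i, s i = i
    · have hs1 : s = 1 := by ext i : 1; exact hs i
      subst hs1
      rw [map_one, mul_one] at hw hgM
      obtain ⟨m, hm⟩ := ih (h (w 0)) (hh _) ⟨tl w, hw⟩ (M.comap (iota (w 0)))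
        (by
          intro d hd x hx
          rw [Subgroup.mem_comap, map_mul, map_mul, map_inv]
          exact hM _ (iota_D1 _ hd) _ hx)
        (by
          intro d hd
          rw [Subgroup.mem_comap]
          have := hgM _ (iota_D1 (w 0) hd)
          rw [commutatorElement_def, Phi_conj_iota, ← map_inv, ← map_mul, ← commutatorElement_def] at this
          exact this)
      refine ⟨m + 1, ?_⟩
      rw [Function.iterate_succ_apply']
      exact L_le_of_iota hM (w 0) fun x hx => hm hx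
    · push Not at hs
      obtain ⟨i, hs⟩ := hs
      refine ⟨1, L_le_of_iota hM i ?_⟩
      have key : ∀ a ∈ D 1, ∀ b ∈ D 1, iota i ⁅a⁻¹, b⁆ ∈ M := by
        intro a ha b hb
        have h1 := hgM _ (iota_D1 i ha)
        have h2 : ⁅Phi h * rho s, iota i a⁆ = iota (s i) (h (s i) * a * (h (s i))⁻¹) * iota i a⁻¹ := by
          rw [← Phi_conj_iota, ← iota_conj, commutatorElement_def, map_inv]
          group
        rw [h2] at h1
        have h3 := M.mul_mem h1 (hM _ (iota_D1 i hb) _ (M.inv_mem h1))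
        have h4 : iota (s i) (h (s i) * a * (h (s i))⁻¹) * iota i a⁻¹ *
            (iota i b * (iota (s i) (h (s i) * a * (h (s i))⁻¹) * iota i a⁻¹)⁻¹ * (iota i b)⁻¹) =
            iota i ⁅a⁻¹, b⁆ := by
          rw [commutatorElement_def]
          simp only [iota_def, ← map_mul, ← map_inv]
          congr 1
          funext l
          by_cases hi : l = i
          · subst hi; simp [Pi.mulSingle_eq_of_ne hs.symm, mul_assoc]
          · simp [Pi.mulSingle_eq_of_ne hi]
        rw [h4] at h3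
        exact h3
      have key2 : D 2 ≤ M.comap (iota i) := by
        rw [show D 2 = ⁅D 1, D 1⁆ from rfl, Subgroup.commutator_le]
        intro a ha b hb
        have := key a⁻¹ ((D 1).inv_mem ha) b hb
        rwa [inv_inv] at this
      exact fun x hx => key2 hx

lemma csp {M : Subgroup (Perm W)} (hMG : M ≤ Gam) (hM : ∀ d ∈ Gam, ∀ m ∈ M, d * m * d⁻¹ ∈ M)
    (hne : M ≠ ⊥) : ∃ k, D k ≤ M := by
  obtain ⟨⟨g, hg⟩, hg0⟩ := Subgroup.ne_bot_iff_exists_ne_one.1 hne
  have hg1 : g ≠ 1 := fun e => hg0 (Subtype.ext e)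
  have : ∃ w : W, ∃ n, g w n ≠ w n := by
    by_contra hcon
    push Not at hcon
    exact hg1 (by ext w : 1; funext n; exact hcon w n)
  obtain ⟨w, n, hwn⟩ := this
  obtain ⟨m, hm⟩ := csp_aux n g (hMG hg) ⟨w, hwn⟩ M (fun d hd => hM d (D_le 1 hd)) (by
    intro d hd
    have h1 := hM d (D_le 1 hd) g⁻¹ (M.inv_mem hg)
    rw [commutatorElement_def, mul_assoc, mul_assoc, ← mul_assoc d]
    exact M.mul_mem hg h1)
  exact ⟨2 * m + 2, by rw [D_even]; exact hm⟩


/-! ### transfer to the type `Gam` -/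

instance : Group.FG Gam := (Group.fg_iff_subgroup_fg Gam).2 Gam_fg

abbrev DS (k : ℕ) : Subgroup Gam := derivedSeries Gam k

lemma DS_zero : DS 0 = ⊤ := derivedSeries_zero _

lemma DS_succ (k : ℕ) : DS (k + 1) = ⁅DS k, DS k⁆ := derivedSeries_succ _ _

lemma map_DS (k : ℕ) : (DS k).map Gam.subtype = D k := by
  induction k with
  | zero =>
    rw [DS_zero, ← MonoidHom.range_eq_map, Subgroup.range_subtype]; rfl
  | succ k ih => rw [DS_succ, Subgroup.map_commutator, ih]; rfl

lemma mem_DS {k : ℕ} {x : Gam} : x ∈ DS k ↔ (x : Perm W) ∈ D k := by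
  rw [← map_DS]
  constructor
  · intro hx; exact ⟨x, hx, rfl⟩
  · rintro ⟨y, hy, e⟩
    rwa [← Subtype.ext e]

lemma csp' {N : Subgroup Gam} [hN : N.Normal] (hne : N ≠ ⊥) : ∃ k, DS k ≤ N := by
  have h1 : N.map Gam.subtype ≠ ⊥ := by
    intro e
    rw [Subgroup.map_eq_bot_iff_of_injective _ Gam.subtype_injective] at e
    exact hne e
  obtain ⟨k, hk⟩ := csp (M := N.map Gam.subtype) (by
      rintro _ ⟨y, _, rfl⟩; exact y.2) (by
      rintro d hd _ ⟨y, hy, rfl⟩
      exact ⟨⟨d, hd⟩ * y * ⟨d, hd⟩⁻¹, hN.conj_mem y hy _, rfl⟩) h1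
  refine ⟨k, fun x hx => ?_⟩
  obtain ⟨y, hy, e⟩ := hk (mem_DS.1 hx)
  rwa [← Subtype.ext e]

/-- a sequence of distinct elements -/
def sq : ℕ → Perm W
  | 0 => rho (finRotate 3)
  | n + 1 => iota 0 (sq n)

lemma sq_mem_Gam (n : ℕ) : sq n ∈ D 1 := by
  induction n with
  | zero => exact rho_even_mem _ (by decide)
  | succ n ih => exact iota_D1 0 ih

lemma sq_apply (n : ℕ) : ∀ m, sq n (fun _ => 0) m = if m = n then 1 else 0 := by
  induction n with
  | zero =>
    intro m
    cases m with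
    | zero => simp [sq, rho_apply]
    | succ m => simp [sq, rho_apply, tl]
  | succ n ih =>
    intro m
    have h : tl (fun _ => (0 : Fin 3)) = fun _ => 0 := rfl
    cases m with
    | zero => simp [sq, iota_def, Phi_apply]
    | succ m => simp [sq, iota_def, Phi_apply, h, ih]

instance : Infinite Gam := by
  apply Infinite.of_injective (fun n : ℕ => (⟨sq n, D_le 1 (sq_mem_Gam n)⟩ : Gam))
  intro a b hab
  have h1 : sq a = sq b := congrArg Subtype.val hab
  have h2 := sq_apply a a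
  rw [h1, sq_apply b a] at h2
  by_contra hne
  simp [hne] at h2

lemma ne_bot_of_finiteIndex {N : Subgroup Gam} [hN : N.FiniteIndex] : N ≠ ⊥ := by
  rintro rfl
  have := hN.index_ne_zero
  rw [Subgroup.index_bot] at this
  exact this (Nat.card_eq_zero_of_infinite)

lemma finiteIndex_commutator {G : Type} [Group G] [Group.FG G] (H : Subgroup G) [H.FiniteIndex]
    (n : ℕ) (hn : 0 < n) (h : ∀ x ∈ H, x ^ n ∈ ⁅H, H⁆) : (⁅H, H⁆ : Subgroup G).FiniteIndex := by
  have h1 : IsMulTorsion (Abelianization H) := by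
    intro x
    obtain ⟨y, rfl⟩ : ∃ y, Abelianization.of y = x := QuotientGroup.mk_surjective x
    rw [isOfFinOrder_iff_pow_eq_one]
    refine ⟨n, hn, ?_⟩
    have : y ^ n ∈ commutator H := by
      have h2 := h y y.2
      rw [← Subgroup.map_subtype_commutator] at h2
      obtain ⟨z, hz, e⟩ := h2
      have : z = y ^ n := Subtype.ext e
      rwa [← this]
    rw [← map_pow, ← MonoidHom.mem_ker, Abelianization.ker_of]
    exact this
  have h3 : Group.FG H := inferInstance
  have h4 : Group.FG (Abelianization H) := Group.fg_of_surjective (f := Abelianization.of) QuotientGroup.mk_surjective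
  have h5 : Finite (Abelianization H) := CommGroup.finite_of_fg_isMulTorsion _ h1
  have h6 : (commutator H).FiniteIndex := by
    have : Finite (H ⧸ commutator H) := h5
    exact Subgroup.finiteIndex_of_finite_quotient
  rw [← Subgroup.map_subtype_commutator]
  constructor
  rw [Subgroup.index_map_subtype]
  exact mul_ne_zero h6.index_ne_zero (Subgroup.FiniteIndex.index_ne_zero)

lemma q_pos (k : ℕ) : 0 < q k := by unfold q; split_ifs <;> norm_num

lemma pow_q_mem_DS (k : ℕ) : ∀ x ∈ DS k, x ^ q k ∈ DS (k + 1) := by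
  intro x hx
  rw [mem_DS] at hx ⊢
  exact pow_q_mem k _ hx

instance DS_finiteIndex (k : ℕ) : (DS k).FiniteIndex := by
  induction k with
  | zero => rw [DS_zero]; infer_instance
  | succ k ih =>
    rw [DS_succ]
    exact finiteIndex_commutator (DS k) (q k) (q_pos k) (pow_q_mem_DS k)


/-! ### no fixed vectors in the derived quotients -/

lemma of_eq_one_iff {x : Perm W} (hx : x ∈ Gam) :
    Abelianization.of (⟨x, hx⟩ : Gam) = 1 ↔ x ∈ D 1 := by
  rw [← MonoidHom.mem_ker, Abelianization.ker_of]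
  constructor
  · intro h
    rw [D_one, ← Subgroup.map_subtype_commutator]
    exact ⟨_, h, rfl⟩
  · intro h
    rw [D_one, ← Subgroup.map_subtype_commutator] at h
    obtain ⟨y, hy, e⟩ := h
    have : y = ⟨x, hx⟩ := Subtype.ext e
    rwa [← this]

lemma D1_form {y : Perm W} (hy : y ∈ D 1) :
    ∃ (h : Fin 3 → Gam) (s : Perm (Fin 3)), Equiv.Perm.sign s = 1 ∧
      Abelianization.of (h 0) * Abelianization.of (h 1) * Abelianization.of (h 2) = 1 ∧
      y = Phi (fun i => (h i : Perm W)) * rho s := by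
  let f : P →* Abelianization Gam × ℤˣ := theta.prod (Equiv.Perm.sign.comp SemidirectProduct.rightHom)
  obtain ⟨p, hp, rfl⟩ := D1_le f hy
  have hp' : f p = 1 := hp
  have h1 : theta p = 1 := congrArg Prod.fst hp'
  have h2 : Equiv.Perm.sign (SemidirectProduct.rightHom p) = 1 := congrArg Prod.snd hp'
  refine ⟨p.left, p.right, h2, ?_, ?_⟩
  · rw [← SemidirectProduct.inl_left_mul_inr_right p, map_mul] at h1
    rw [theta, SemidirectProduct.lift_inl, SemidirectProduct.lift_inr] at h1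
    have : prodHom p.left = ∏ i, Abelianization.of (p.left i) := rfl
    rw [this, Fin.prod_univ_three] at h1
    simpa using h1
  · conv_lhs => rw [← SemidirectProduct.inl_left_mul_inr_right p]
    rw [map_mul, kappa_inl]
    congr 1

lemma perm_eq_one_of_mem_L {H : Subgroup (Perm W)} {h : Fin 3 → Perm W} {s : Perm (Fin 3)}
    (hm : Phi h * rho s ∈ L H) : s = 1 := by
  obtain ⟨g, _, e⟩ := mem_L.1 hm
  ext i : 1
  have := congrArg (fun e : Perm W => e (cons i (fun _ => 0)) 0) e
  simp only [Perm.mul_apply, Phi_apply, rho_apply, cons_zero] at this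
  exact this.symm

lemma even_fixed (s : Perm (Fin 3)) (hs : Equiv.Perm.sign s = 1)
    (h : Equiv.swap 0 1 * s * (Equiv.swap 0 1)⁻¹ * s⁻¹ = 1) : s = 1 := by
  revert s; decide

lemma comm_form (t s : Perm (Fin 3)) (g : Fin 3 → Perm W) :
    ∃ g' : Fin 3 → Perm W, ⁅rho t, Phi g * rho s⁆ = Phi g' * rho (t * s * t⁻¹ * s⁻¹) := by
  refine ⟨(fun i => g (t⁻¹ i)) * (fun i => (g ((t * s * t⁻¹ * s⁻¹)⁻¹ i))⁻¹), ?_⟩
  have e1 : ⁅rho t, Phi g * rho s⁆ = (rho t * Phi g * (rho t)⁻¹) *
      (rho (t * s * t⁻¹ * s⁻¹) * Phi g⁻¹) := by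
    rw [commutatorElement_def]; simp only [map_mul, map_inv]; group
  rw [e1, conj_Phi, rho_Phi, ← mul_assoc, ← map_mul]
  rfl

lemma fix_one {y : Perm W} (hy : y ∈ D 1) (h : ∀ x ∈ Gam, ⁅x, y⁆ ∈ D 2) : y ∈ D 2 := by
  obtain ⟨g, s, hs, hg, rfl⟩ := D1_form hy
  have h1 := D2_le (h _ (rho_mem (Equiv.swap 0 1)))
  obtain ⟨g', e⟩ := comm_form (Equiv.swap 0 1) s (fun i => (g i : Perm W))
  rw [e] at h1
  have h3 := perm_eq_one_of_mem_L h1
  have h4 := even_fixed s hs h3
  subst h4
  rw [map_one, mul_one]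
  apply Phi_mem_D2 (fun i => (g i).2)
  rw [← map_mul, ← map_mul] at hg
  exact (of_eq_one_iff (g 0 * g 1 * g 2).2).1 hg

lemma fix_two {y : Perm W} (hy : y ∈ D 2) (h : ∀ x ∈ Gam, ⁅x, y⁆ ∈ D 3) : y ∈ D 3 := by
  obtain ⟨g, s, hs, hg, rfl⟩ := D1_form (D_succ_le 1 hy)
  have hs1 : s = 1 := perm_eq_one_of_mem_L (D2_le hy)
  subst hs1
  rw [map_one, mul_one] at h ⊢
  have h1 := h _ (rho_mem (finRotate 3))
  rw [commutatorElement_def, conj_Phi, ← map_inv, ← map_mul, D3_eq, Phi_mem_L] at h1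
  have h2 : ∀ i, Abelianization.of (g ((finRotate 3)⁻¹ i)) = Abelianization.of (g i) := by
    intro i
    have := h1 i
    simp only [Pi.mul_apply, Pi.inv_apply] at this
    have h3 := (of_eq_one_iff (g ((finRotate 3)⁻¹ i) * (g i)⁻¹).2).2 this
    have h4 : Abelianization.of (g ((finRotate 3)⁻¹ i) * (g i)⁻¹) = 1 := h3
    rw [map_mul, map_inv] at h4
    exact mul_inv_eq_one.1 h4
  have e0 := h2 0
  have e1 := h2 1
  rw [show (finRotate 3)⁻¹ 0 = 2 by decide] at e0
  rw [show (finRotate 3)⁻¹ 1 = 0 by decide] at e1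
  rw [← e1, e0] at hg
  have h5 : Abelianization.of (g 0) ^ 2 = 1 := by
    rw [← map_pow]
    exact (of_eq_one_iff (g 0 ^ 2).2).2 (sq_mem (g 0).2)
  have h6 : Abelianization.of (g 0) = 1 := by
    rw [← pow_two, h5, one_mul] at hg
    exact hg
  rw [D3_eq, Phi_mem_L]
  intro i
  apply (of_eq_one_iff (g i).2).1
  change Abelianization.of (g i) = 1
  fin_cases i
  · exact h6
  · change Abelianization.of (g 1) = 1
    rw [← e1]; exact h6
  · change Abelianization.of (g 2) = 1
    rw [e0]; exact h6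

lemma fix_all (k : ℕ) : ∀ y ∈ D (k + 1), (∀ x ∈ Gam, ⁅x, y⁆ ∈ D (k + 2)) → y ∈ D (k + 2) := by
  induction k using Nat.strong_induction_on with
  | _ k ih =>
    match k with
    | 0 => exact fun y hy h => fix_one hy h
    | 1 => exact fun y hy h => fix_two hy h
    | (k + 2) =>
      intro y hy h
      have hy' : y ∈ L (D (k + 1)) := by rw [← D_add]; exact hy
      obtain ⟨f, hf, rfl⟩ := mem_L.1 hy'
      have e : D (k + 2 + 2) = L (D (k + 2)) := D_add (k + 1)
      rw [e, Phi_mem_L]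
      intro i
      apply ih k (by lia) _ (hf i)
      intro x hx
      obtain ⟨j, hj⟩ : ∃ j : Fin 3, j ≠ i := exists_ne i
      obtain ⟨g, hg, _, hgi⟩ := lemA hj hx
      have h1 := h _ hg
      rw [e, commutatorElement_def, ← map_inv, ← map_inv, ← map_mul, ← map_mul, ← map_mul, Phi_mem_L] at h1
      have h2 := h1 i
      simp only [Pi.mul_apply, Pi.inv_apply, hgi] at h2
      exact h2


/-! ### many classes in the derived quotients -/

lemma ee_Phi_comm {i j : Fin 3} (hij : i ≠ j) (x : Perm W) (h : Fin 3 → Perm W) :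
    ⁅ee i j x, Phi h⁆ = Phi (Pi.mulSingle i ⁅x, h i⁆ * Pi.mulSingle j ⁅x⁻¹, h j⁆) := by
  rw [commutatorElement_def]
  simp only [ee, iota_def, ← map_mul, ← map_inv]
  congr 1
  funext l
  by_cases hi : l = i
  · subst hi; simp [Pi.mulSingle_eq_of_ne hij, commutatorElement_def]
  · by_cases hj : l = j
    · subst hj; simp [Pi.mulSingle_eq_of_ne hi, commutatorElement_def]
    · simp [Pi.mulSingle_eq_of_ne hi, Pi.mulSingle_eq_of_ne hj]

lemma comm_mem_of_conj {M : Subgroup (Perm W)} (hM : ∀ d ∈ D 1, ∀ m ∈ M, d * m * d⁻¹ ∈ M)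
    {d m : Perm W} (hd : d ∈ D 1) (hm : m ∈ M) : ⁅d, m⁆ ∈ M :=
  M.mul_mem (hM d hd m hm) (M.inv_mem hm)

lemma isolate {k : ℕ} {N : Subgroup (Perm W)} (hM : ∀ d ∈ D 1, ∀ m ∈ N, d * m * d⁻¹ ∈ N)
    (h1 : N ≤ L (D (k + 1))) (h2 : ¬ N ≤ L (D (k + 2))) :
    ∀ i, ∃ y ∈ D (k + 1), y ∉ D (k + 2) ∧ iota i y ∈ N := by
  obtain ⟨g, hg, hg'⟩ := SetLike.not_le_iff_exists.1 h2
  obtain ⟨h, hh, rfl⟩ := mem_L.1 (h1 hg)
  rw [Phi_mem_L] at hg'
  push Not at hg'
  obtain ⟨i, hi⟩ := hg'
  have key : ∃ y ∈ D (k + 1), y ∉ D (k + 2) ∧ iota i y ∈ N := by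
    obtain ⟨j, l, hij, hil, hjl⟩ := exists_third (i := i)
    have a1 : ∃ x ∈ Gam, ⁅x, h i⁆ ∉ D (k + 2) := by
      by_contra hcon
      push Not at hcon
      exact hi (fix_all k _ (hh i) hcon)
    obtain ⟨x, hx, hx2⟩ := a1
    have hx1 : ⁅x, h i⁆ ∈ D (k + 1) :=
      (D (k + 1)).mul_mem (D_conj _ x hx _ (hh i)) ((D (k + 1)).inv_mem (hh i))
    have a2 : ∃ x' ∈ Gam, ⁅x', ⁅x, h i⁆⁆ ∉ D (k + 2) := by
      by_contra hcon
      push Not at hcon
      exact hx2 (fix_all k _ hx1 hcon)
    obtain ⟨x', hx', hx3⟩ := a2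
    have hx4 : ⁅x', ⁅x, h i⁆⁆ ∈ D (k + 1) :=
      (D (k + 1)).mul_mem (D_conj _ x' hx' _ hx1) ((D (k + 1)).inv_mem hx1)
    refine ⟨_, hx4, hx3, ?_⟩
    have b1 := comm_mem_of_conj hM (ee_mem_D1 hij hx) hg
    rw [ee_Phi_comm hij] at b1
    have b2 := comm_mem_of_conj hM (ee_mem_D1 hil hx') b1
    rw [ee_Phi_comm hil] at b2
    have e1 : (Pi.mulSingle i ⁅x, h i⁆ * Pi.mulSingle j ⁅x⁻¹, h j⁆ : Fin 3 → Perm W) i = ⁅x, h i⁆ := by
      simp [Pi.mulSingle_eq_of_ne hij]
    have e2 : (Pi.mulSingle i ⁅x, h i⁆ * Pi.mulSingle j ⁅x⁻¹, h j⁆ : Fin 3 → Perm W) l = 1 := by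
      simp [Pi.mulSingle_eq_of_ne hil.symm, Pi.mulSingle_eq_of_ne hjl.symm]
    rw [e1, e2, commutatorElement_one_right, Pi.mulSingle_one, mul_one] at b2
    exact b2
  obtain ⟨y, hy1, hy2, hy3⟩ := key
  intro j
  obtain ⟨s, hs, rfl⟩ := exists_even i j
  refine ⟨y, hy1, hy2, ?_⟩
  rw [← iota_conj]
  exact hM _ (rho_even_mem s hs) _ hy3

lemma iota_mem_L_iff {H : Subgroup (Perm W)} {i : Fin 3} {x : Perm W} : iota i x ∈ L H ↔ x ∈ H := by
  constructor
  · intro h
    rw [iota_def, Phi_mem_L] at h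
    simpa using h i
  · exact iota_mem_L

lemma count (e m : ℕ) : ∀ N : Subgroup (Perm W), N ≤ D (2 * m + e + 1) → ¬ N ≤ D (2 * m + e + 2) →
    (∀ d ∈ D 1, ∀ x ∈ N, d * x * d⁻¹ ∈ N) →
    ∃ T : Finset (Perm W), m + 1 ≤ T.card ∧ (∀ x ∈ T, x ∈ N) ∧ (∀ x ∈ T, x ∉ D (2 * m + e + 2)) ∧
      (∀ x ∈ T, ∀ y ∈ T, x⁻¹ * y ∈ D (2 * m + e + 2) → x = y) := by
  classical
  induction m with
  | zero =>
    intro N h1 h2 hM
    obtain ⟨g, hg, hg'⟩ := SetLike.not_le_iff_exists.1 h2
    refine ⟨{g}, by simp, by simpa using hg, by simpa using hg', ?_⟩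
    intro x hx y hy _
    rw [Finset.mem_singleton] at hx hy
    rw [hx, hy]
  | succ m ih =>
    intro N h1 h2 hM
    have e1 : D (2 * (m + 1) + e + 1) = L (D (2 * m + e + 1)) := by
      rw [← D_add]; congr 1; ring
    have e2 : D (2 * (m + 1) + e + 2) = L (D (2 * m + e + 2)) := by
      rw [← D_add (2 * m + e + 1)]; congr 1; ring
    rw [e1] at h1
    rw [e2] at h2 ⊢
    have hiso := isolate hM h1 h2
    obtain ⟨y, hy1, hy2, hy3⟩ := hiso 1
    obtain ⟨z, hz1, hz2, hz3⟩ := hiso 0
    obtain ⟨T, hT1, hT2, hT3, hT4⟩ := ih (N.comap (iota 0))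
      (fun x hx => by
        have := h1 hx
        exact iota_mem_L_iff.1 this)
      (fun hle => hz2 (hle hz3))
      (by
        intro d hd x hx
        rw [Subgroup.mem_comap, map_mul, map_mul, map_inv]
        exact hM _ (iota_D1 _ hd) _ hx)
    have hinj : Function.Injective (iota 0) := by
      intro a b hab
      have := Phi_injective hab
      simpa using congrFun this 0
    have hd : ∀ x : Perm W, (iota 0 x)⁻¹ * iota 1 y ∉ L (D (2 * m + e + 2)) := by
      intro x hx
      rw [iota_def, iota_def, ← map_inv, ← map_mul, Phi_mem_L] at hx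
      have := hx 1
      simp at this
      exact hy2 this
    refine ⟨insert (iota 1 y) (T.image (iota 0)), ?_, ?_, ?_, ?_⟩
    · rw [Finset.card_insert_of_notMem, Finset.card_image_of_injective _ hinj]
      · lia
      · rw [Finset.mem_image]
        rintro ⟨x, _, hx⟩
        apply hd x
        rw [hx, inv_mul_cancel]
        exact Subgroup.one_mem _
    · intro x hx
      rw [Finset.mem_insert, Finset.mem_image] at hx
      rcases hx with rfl | ⟨x, hx, rfl⟩
      · exact hy3
      · exact hT2 x hx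
    · intro x hx
      rw [Finset.mem_insert, Finset.mem_image] at hx
      rcases hx with rfl | ⟨x, hx, rfl⟩
      · rw [iota_mem_L_iff]; exact hy2
      · rw [iota_mem_L_iff]; exact hT3 x hx
    · intro a ha b hb hab
      rw [Finset.mem_insert, Finset.mem_image] at ha hb
      rcases ha with rfl | ⟨x, hx, rfl⟩ <;> rcases hb with rfl | ⟨x', hx', rfl⟩
      · rfl
      · exfalso
        apply hd x'
        have := Subgroup.inv_mem _ hab
        rwa [mul_inv_rev, inv_inv] at this
      · exact absurd hab (hd x)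
      · rw [← map_inv, ← map_mul, iota_mem_L_iff] at hab
        rw [hT4 x hx x' hx' hab]


/-! ### Conclusion -/

lemma minGen_eq_zero (A : Type) [Group A] [Subsingleton A] : minGen A = 0 := by
  apply le_antisymm _ bot_le
  refine iInf₂_le_of_le ∅ ?_ ?_
  · ext x; simp [Subsingleton.elim x 1]
  · simp

lemma mem_of_coprime {G : Type} [Group G] (K : Subgroup G) {x : G} {a b : ℕ} (h : Nat.Coprime a b)
    (ha : x ^ a ∈ K) (hb : x ^ b ∈ K) : x ∈ K := by
  have e : x = (x ^ a) ^ (Nat.gcdA a b) * (x ^ b) ^ (Nat.gcdB a b) := by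
    have := Nat.gcd_eq_gcd_ab a b
    rw [h] at this
    rw [← zpow_natCast, ← zpow_natCast, ← zpow_mul, ← zpow_mul, ← zpow_add, ← this]
    simp
  rw [e]
  exact K.mul_mem (K.zpow_mem ha _) (K.zpow_mem hb _)

lemma q_prime (k : ℕ) : (q k).Prime := by unfold q; split_ifs <;> norm_num

lemma pow_q_commutator (k : ℕ) (x : DS k) : x ^ q k ∈ commutator (DS k) := by
  have h := pow_q_mem_DS k x x.2
  rw [DS_succ, ← Subgroup.map_subtype_commutator] at h
  obtain ⟨z, hz, e⟩ := h
  have : z = x ^ q k := Subtype.ext e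
  rwa [← this]

lemma dp_DS {p : ℕ} (hp : p.Prime) (k : ℕ) (hk : q k ≠ p) : dp p (DS k) = 0 := by
  have h : commPow p (DS k) = ⊤ := by
    rw [eq_top_iff]
    intro x _
    apply mem_of_coprime _ ((Nat.coprime_primes (q_prime k) hp).2 hk)
    · exact Subgroup.mem_sup_left (pow_q_commutator k x)
    · exact Subgroup.mem_sup_right (Subgroup.subset_closure ⟨x, rfl⟩)
  have : Subsingleton (DS k ⧸ commPow p (DS k)) := by
    rw [h]; exact QuotientGroup.subsingleton_quotient_top
  exact minGen_eq_zero _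

lemma DS_anti : Antitone DS := derivedSeries_antitone _

lemma limit_dp {p : ℕ} (hp : p.Prime) : lowerNormalLimit (dp p) Gam = 0 := by
  apply le_antisymm _ bot_le
  refine iSup₂_le fun M hM => ?_
  obtain ⟨hM1, hM2⟩ := hM
  obtain ⟨k, hk⟩ := csp' (N := M) ne_bot_of_finiteIndex
  obtain ⟨j, hkj, hj⟩ : ∃ j, k ≤ j ∧ q j ≠ p := by
    by_cases h2 : p = 2
    · exact ⟨2 * k + 1, by lia, by subst h2; simp [q, Nat.add_mod]⟩
    · exact ⟨2 * k, by lia, by simp [q, Ne.symm h2]⟩
  refine iInf₂_le_of_le (DS j) ⟨⟨inferInstance, inferInstance⟩, (DS_anti hkj).trans hk⟩ ?_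
  exact (dp_DS hp j hj).le

lemma q_le (k : ℕ) : q k ≤ 3 := by unfold q; split_ifs <;> norm_num

/-- a commutative quotient with many elements needs many generators -/
lemma le_pow_of_closure {A B : Type} [CommGroup A] [CommGroup B] (F : A →* B) (S : Finset A)
    (hS : Subgroup.closure (S : Set A) = ⊤) (n : ℕ) (hn : 0 < n) (hB : ∀ b : B, b ^ n = 1)
    (T : Finset B) (hT : ∀ b ∈ T, b ∈ F.range) : T.card ≤ n ^ S.card := by
  classical
  have h0 : Subgroup.closure ((S.image F : Finset B) : Set B) = F.range := by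
    rw [Finset.coe_image, ← MonoidHom.map_closure, hS, MonoidHom.range_eq_map]
  have h1 : Group.FG (Subgroup.closure ((S.image F : Finset B) : Set B)) := inferInstance
  have h2 := card_dvd_exponent_pow_rank' (G := Subgroup.closure ((S.image F : Finset B) : Set B)) (n := n)
    (by rintro ⟨g, hg⟩; exact Subtype.ext (hB g))
  have h3 : Nat.card (Subgroup.closure ((S.image F : Finset B) : Set B)) ≤
      n ^ Group.rank (Subgroup.closure ((S.image F : Finset B) : Set B)) :=
    Nat.le_of_dvd (pow_pos hn _) h2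
  have h4 : Group.rank (Subgroup.closure ((S.image F : Finset B) : Set B)) ≤ S.card :=
    (Subgroup.rank_closure_finset_le_card _).trans Finset.card_image_le
  have h5 : Nat.card (Subgroup.closure ((S.image F : Finset B) : Set B)) ≠ 0 := by
    intro h
    rw [h] at h2
    exact (pow_pos hn _).ne' (zero_dvd_iff.1 h2)
  have h6 : Finite (Subgroup.closure ((S.image F : Finset B) : Set B)) := Nat.finite_of_card_ne_zero h5
  have h7 : T.card ≤ Nat.card (Subgroup.closure ((S.image F : Finset B) : Set B)) := by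
    have h8 : (T : Set B) ⊆ (Subgroup.closure ((S.image F : Finset B) : Set B) : Set B) := by
      intro b hb
      rw [h0]
      exact hT b hb
    have h9 := Set.ncard_le_ncard h8 (Set.toFinite _)
    rw [Set.ncard_coe_finset] at h9
    exact h9
  exact h7.trans (h3.trans (Nat.pow_le_pow_right hn h4))

lemma delta_lower (c : ℕ) (N : Subgroup Gam) (h1 : N.Normal) (h2 : N.FiniteIndex)
    (h3 : N ≤ DS (2 * 3 ^ c + 1)) : (c : ℕ∞) ≤ delta N := by
  classical
  -- the last derived term containing `N`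
  have hex : ∃ j, ¬ N ≤ DS j := by
    by_contra hcon
    push Not at hcon
    apply ne_bot_of_finiteIndex (N := N)
    rw [eq_bot_iff]
    intro x hx
    rw [Subgroup.mem_bot]
    exact Subtype.ext (eq_one_of_forall fun k => mem_DS.1 (hcon k hx))
  have hj1 := Nat.find_spec hex
  have hj2 : ∀ i < Nat.find hex, N ≤ DS i := fun i hi => not_not.1 (Nat.find_min hex hi)
  set j := Nat.find hex with hj
  have hj3 : 2 * 3 ^ c + 1 < j := by
    by_contra hcon
    push Not at hcon
    exact hj1 (h3.trans (DS_anti hcon))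
  obtain ⟨m, e, hm, hjm⟩ : ∃ m e, 3 ^ c ≤ m ∧ j = 2 * m + e + 2 := by
    refine ⟨3 ^ c, j - 2 * 3 ^ c - 2, le_rfl, by lia⟩
  have hNle : N ≤ DS (2 * m + e + 1) := hj2 _ (by lia)
  have hNn : ¬ N ≤ DS (2 * m + e + 2) := by rw [← hjm]; exact hj1
  -- many classes
  obtain ⟨T, hT1, hT2, -, hT4⟩ := count e m (N.map Gam.subtype)
    (by
      rintro _ ⟨x, hx, rfl⟩
      exact mem_DS.1 (hNle hx))
    (by
      intro hle
      apply hNn
      intro x hx
      exact mem_DS.2 (hle ⟨x, hx, rfl⟩))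
    (by
      rintro d hd _ ⟨y, hy, rfl⟩
      exact ⟨⟨d, D_le 1 hd⟩ * y * ⟨d, D_le 1 hd⟩⁻¹, h1.conj_mem y hy _, rfl⟩)
  unfold delta minGen
  refine le_iInf₂ fun S hS => ?_
  -- the homomorphism to the derived quotient
  let k := 2 * m + e + 1
  let f : N →* Abelianization (DS k) := Abelianization.of.comp (Subgroup.inclusion hNle)
  let F : Abelianization N →* Abelianization (DS k) := Abelianization.lift f
  have hF : ∀ x : N, F (Abelianization.of x) = f x := fun x => Abelianization.lift_apply_of f x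
  have hB : ∀ b : Abelianization (DS k), b ^ q k = 1 := by
    intro b
    obtain ⟨y, rfl⟩ : ∃ y, Abelianization.of y = b := QuotientGroup.mk_surjective b
    rw [← map_pow, ← MonoidHom.mem_ker, Abelianization.ker_of]
    exact pow_q_commutator k y
  have hpick : ∀ t : T, ∃ x : N, ((x : Gam) : Perm W) = t := by
    rintro ⟨t, ht⟩
    obtain ⟨y, hy, e⟩ := hT2 t ht
    exact ⟨⟨y, hy⟩, e⟩
  choose pick hp using hpick
  have hinj : Function.Injective (fun t : T => f (pick t)) := by
    intro a b hab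
    have h5 : Abelianization.of (Subgroup.inclusion hNle ((pick a)⁻¹ * pick b)) = 1 := by
      have : f ((pick a)⁻¹ * pick b) = 1 := by
        rw [map_mul, map_inv]
        have hab' : f (pick a) = f (pick b) := hab
        rw [hab', inv_mul_cancel]
      exact this
    rw [← MonoidHom.mem_ker, Abelianization.ker_of] at h5
    have h6 : ((Subgroup.inclusion hNle ((pick a)⁻¹ * pick b) : DS k) : Gam) ∈ DS (k + 1) := by
      rw [DS_succ, ← Subgroup.map_subtype_commutator]
      exact ⟨_, h5, rfl⟩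
    rw [mem_DS] at h6
    apply Subtype.ext
    apply hT4 a a.2 b b.2
    rw [← hp a, ← hp b]
    exact h6
  have h7 := le_pow_of_closure F S hS (q k) (q_pos k) hB (Finset.univ.image (fun t : T => f (pick t)))
    (by
      intro b hb
      rw [Finset.mem_image] at hb
      obtain ⟨t, _, rfl⟩ := hb
      exact ⟨_, hF _⟩)
  rw [Finset.card_image_of_injective _ hinj, Finset.card_univ, Fintype.card_coe] at h7
  have h8 : 3 ^ c < 3 ^ S.card := by
    calc 3 ^ c < m + 1 := Nat.lt_succ_of_le hm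
      _ ≤ T.card := hT1
      _ ≤ q k ^ S.card := h7
      _ ≤ 3 ^ S.card := Nat.pow_le_pow_left (q_le k) _
  have h9 : c < S.card := (Nat.pow_lt_pow_iff_right (by norm_num)).1 h8
  exact_mod_cast h9.le

lemma limit_delta : lowerNormalLimit delta Gam = ⊤ := by
  rw [ENat.eq_top_iff_forall_ge]
  intro c
  refine le_iSup₂_of_le (DS (2 * 3 ^ c + 1)) ⟨inferInstance, inferInstance⟩ ?_
  exact le_iInf₂ fun N hN => delta_lower c N hN.1.1 hN.1.2 hN.2

/-- There is a finitely generated group whose mod-`p` lower normal limit vanishes for every prime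
`p`, while the lower normal limit of the abelianisation rank (its dimension) is infinite. -/
theorem result : ∃ (Γ : Type) (_ : Group Γ), Group.FG Γ ∧
    (⨆ (p : ℕ) (_ : p.Prime), lowerNormalLimit (dp p) Γ) = 0 ∧ lowerNormalLimit delta Γ = ⊤ := by
  refine ⟨Gam, inferInstance, inferInstance, ?_, limit_delta⟩
  apply le_antisymm _ bot_le
  exact iSup₂_le fun p hp => (limit_dp hp).le

end Pool.Agent.Results.MP_4236ce_al.RankGap
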